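import Pool.Agent.Lib_MP_5167e7.Final

/-!
# MP_5167e7: every ordering of the edges is denominator reducible

Full (positive) answer to Q1: for a simple 3-connected graph without a minor isomorphic to
`K₅`, `K₃,₃`, `H`, `O` or `C`, every ordering of the edges (with any orientation of the edges and any
deleted vertex) is denominator reducible.

The proof has two parts. (A) If the edges of a graph have a linear order in which every cut between
an initial and a final segment meets at most three vertices, then for every set `S` of at least five
edges the polynomial reached by the denominator reduction of the edges of `S`, in any order, is up to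
sign the product of two explicit Dodgson polynomials (`insert_mid`, `insert_left`, `LW_reducible`).
(B) Every 3-connected simple graph without the five minors has such a linear order (`theorem_B`).
-/

namespace Pool.Agent.Results.MP_5167e7_co.AllOrderings

open DR

/-- Let `G` be a 3-connected simple graph on the finite vertex set `V` which has no minor isomorphic
to `K₅`, `K₃,₃`, `H`, the octahedron or the cube. Let `src, tgt : Fin N → V` list the edges of `G`,
each exactly once, in any order and with any orientation, and let `v0` be any vertex. Then `N ≥ 5`
and the ordering is denominator reducible. -/
theorem result {V : Type} [Fintype V] (G : SimpleGraph V) (hG : ThreeConnected G)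
    (h1 : ¬ IsMinor K5 G) (h2 : ¬ IsMinor K33 G) (h3 : ¬ IsMinor HGraph G)
    (h4 : ¬ IsMinor Octahedron G) (h5 : ¬ IsMinor Cube G) {N : ℕ} (src tgt : Fin N → V)
    (hinj : Function.Injective fun i => s(src i, tgt i))
    (hran : Set.range (fun i => s(src i, tgt i)) = G.edgeSet) (v0 : V) :
    ∃ hN : 5 ≤ N, DenominatorReducible src tgt v0 hN :=
  main G hG h1 h2 h3 h4 h5 src tgt hinj hran v0

end Pool.Agent.Results.MP_5167e7_co.AllOrderings
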